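import Pool.Agent.Run7.h719.CD.CertN
import Pool.Agent.Run7.h719.CG.Main

/-!
# The mean absolute difference of the two gaps of a pair, from above
-/

open Filter Topology Set

namespace Run7.h719.CD

open Pool.Agent.Y747 Pool.Agent.TH873.EW
open Run7.h719.CG (avgP)

lemma np_N (p : ℝ) (_hp : 0 ≤ p) : 0 ≤ Np (9447 / 10000) (-2263 / 2000) (3389 / 10000) p := by
  have e : Np (9447 / 10000) (-2263 / 2000) (3389 / 10000) p =
      3389 / 10000 * (p - 11315 / 6778) ^ 2 + (9447 / 10000 - 11315 ^ 2 / (4 * 3389 * 10000)) := by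
    unfold Np
    ring
  rw [e]
  have : (0 : ℝ) ≤ 9447 / 10000 - 11315 ^ 2 / (4 * 3389 * 10000) := by norm_num
  positivity

noncomputable abbrev gN : ℝ → ℝ := gk (9447 / 10000) (-2263 / 2000) (3389 / 10000)

lemma ctN (x : ℝ) : 0 ≤ ct gN x := ct_gk_nonneg np_N x

lemma min_ge {x y : ℝ} (hx : 0 ≤ x) (hxy : x ≤ y) : 2361 / 2500 - x ≤ ct gN x + ct gN y := by
  have r0 := ctN x
  have r1 := ctN y
  rcases le_total x 1 with h | h
  · have := cn np_N x hx h
    unfold gN at r1 ⊢
    linarith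
  · linarith

theorem pair_le (RH : RiemannHypothesis) : ∀ᶠ N : ℕ in atTop,
    ∀ σ : ℕ → ℕ, BijOn σ (Icc 1 N) (Icc 1 N) →
      ∑ n ∈ Finset.Icc 1 N, |(|dl n| - |dl (σ n)|)| ≤ 0.8088 * N := by
  have h := avgP RH (cd_gk (9447 / 10000) (-2263 / 2000) (3389 / 10000))
    (gk_one (9447 / 10000) (-2263 / 2000) (3389 / 10000)) (ct_gk_nonneg np_N)
    (lam := 1 / 2) (c := 1 - 2361 / 2500 - 9447 / 10000) (by norm_num)
    (φ := fun x y => |x - y| / 2) (fun x y hx hy => by
      rw [ct_gk_zero]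
      rcases le_total x y with hxy | hxy
      · have := min_ge hx hxy
        unfold gN at this
        rw [abs_of_nonpos (by linarith)]
        linarith
      · have := min_ge hy hxy
        unfold gN at this
        rw [abs_of_nonneg (by linarith)]
        linarith) (1 / 100000) (by norm_num)
  rw [mom_gk] at h
  filter_upwards [h] with N hN' σ hσ
  have hN := hN' σ hσ
  rw [← Finset.sum_div] at hN
  have h1 := Real.pi_gt_d6
  have h2 := Real.pi_lt_d6
  have h3 : (0.02533 : ℝ) < 1 / (4 * Real.pi ^ 2) := by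
    rw [lt_div_iff₀ (by positivity)]
    nlinarith
  have e : Vf (9447 / 10000) (-2263 / 2000) (3389 / 10000) =
      (4 / 3 * (9447 / 10000) + (9447 / 10000 - 2263 / 2000 + 3389 / 10000) / 2 : ℝ) -
        (2 * (9447 / 10000 - 3389 / 10000) + 3 * (9447 / 10000 - 2263 / 2000 + 3389 / 10000)) *
          (1 / (4 * Real.pi ^ 2)) := by
    unfold Vf
    ring
  have h4 : 1 - 2361 / 2500 - 9447 / 10000 +
      Vf (9447 / 10000) (-2263 / 2000) (3389 / 10000) + 1 / 100000 ≤ 0.4044 := by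
    rw [e]
    linarith
  have hN0 : (0 : ℝ) ≤ N := Nat.cast_nonneg N
  have h5 := mul_le_mul_of_nonneg_right h4 hN0
  linarith

/-- consecutive gaps -/
theorem consec_le (RH : RiemannHypothesis) : ∀ᶠ N : ℕ in atTop,
    ∑ n ∈ Finset.Icc 1 N, |dl (n + 1) - dl n| ≤ 0.8089 * N := by
  obtain ⟨n0, hn0⟩ := dl_nonneg
  obtain ⟨K, hK⟩ : ∃ K : ℝ, K = ∑ n ∈ Finset.range n0, |dl (n + 1) - dl n| := ⟨_, rfl⟩
  have hc := (tendsto_add_atTop_nat 1).eventually (pair_le RH)
  filter_upwards [hc, (tendsto_natCast_atTop_atTop (R := ℝ)).eventually_ge_atTop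
    ((K + 1) / 0.0001)] with N h1 h2
  obtain ⟨σ, hσ⟩ : ∃ σ : ℕ → ℕ, σ = fun n => if n = N + 1 then 1 else n + 1 := ⟨_, rfl⟩
  have hbij : BijOn σ (Icc 1 (N + 1)) (Icc 1 (N + 1)) := by
    refine ⟨?_, ?_, ?_⟩
    · intro n hn
      rw [mem_Icc] at hn
      rw [hσ]
      show (if n = N + 1 then 1 else n + 1) ∈ Icc 1 (N + 1)
      split_ifs with h
      · exact ⟨le_rfl, by omega⟩
      · exact ⟨by omega, by omega⟩
    · intro a ha b hb hab
      rw [mem_Icc] at ha hb
      rw [hσ] at hab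
      simp only at hab
      split_ifs at hab <;> omega
    · intro b hb
      rw [mem_Icc] at hb
      rcases Nat.eq_or_lt_of_le hb.1 with h | h
      · refine ⟨N + 1, ⟨by omega, le_rfl⟩, ?_⟩
        rw [hσ]
        simp [h]
      · refine ⟨b - 1, ⟨by omega, by omega⟩, ?_⟩
        rw [hσ]
        show (if b - 1 = N + 1 then 1 else b - 1 + 1) = b
        rw [if_neg (by omega)]
        omega
  have h3 := h1 σ hbij
  have h4 : ∑ n ∈ Finset.Icc 1 N, |dl (n + 1) - dl n| ≤
      ∑ n ∈ Finset.Icc 1 N, |(|dl n| - |dl (σ n)|)| + K := by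
    have h5 : ∀ n ∈ Finset.Icc 1 N, |dl (n + 1) - dl n| ≤ |(|dl n| - |dl (σ n)|)| +
        if n < n0 then |dl (n + 1) - dl n| else 0 := by
      intro n hn
      rw [Finset.mem_Icc] at hn
      split_ifs with h
      · have := abs_nonneg (|dl n| - |dl (σ n)|)
        linarith
      · push Not at h
        have e1 : σ n = n + 1 := by
          rw [hσ]
          show (if n = N + 1 then 1 else n + 1) = n + 1
          rw [if_neg (by omega)]
        rw [e1, abs_of_nonneg (hn0 n h), abs_of_nonneg (hn0 (n + 1) (by omega)), add_zero,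
          abs_sub_comm]
    refine (Finset.sum_le_sum h5).trans ?_
    rw [Finset.sum_add_distrib, ← Finset.sum_filter, hK]
    gcongr
    intro n hn
    rw [Finset.mem_filter] at hn
    exact Finset.mem_range.2 hn.2
  have h6 : ∑ n ∈ Finset.Icc 1 N, |(|dl n| - |dl (σ n)|)| ≤
      ∑ n ∈ Finset.Icc 1 (N + 1), |(|dl n| - |dl (σ n)|)| := by
    apply Finset.sum_le_sum_of_subset_of_nonneg
    · exact Finset.Icc_subset_Icc_right (by omega)
    · intro n _ _
      exact abs_nonneg _
  push_cast at h3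
  rw [div_le_iff₀ (by norm_num)] at h2
  linarith

end Run7.h719.CD
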