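import Pool.Agent.Run7.h719.NV.Asm
import Pool.Agent.Run7.h719.SM.Tanh
import Pool.Agent.Run7.h719.SM.Cost

/-!
# The number variance of the GUE for windows of length `7`
-/

open MeasureTheory Set Filter Topology

namespace Run7.h719.CD

open Run7.h719.NV (wb wb_eq wb_int wb_nonneg half gue_eq wb_mn_int wb_on wb_on_eq wb_mn_one)
open Pool.Agent.Y749.Rig (mn mn_even)
open Run7.h719.SM (nonneg_of_deriv pi_sq)

/-- Taylor polynomials of the cosine and of the sine -/
noncomputable def CT (k : ℕ) (x : ℝ) : ℝ :=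
  ∑ j ∈ Finset.range (k + 1), (-1 : ℝ) ^ j * (x ^ (2 * j) / (2 * j).factorial)

noncomputable def ST (k : ℕ) (x : ℝ) : ℝ :=
  ∑ j ∈ Finset.range (k + 1), (-1 : ℝ) ^ j * (x ^ (2 * j + 1) / (2 * j + 1).factorial)

lemma hd_ST (k : ℕ) (x : ℝ) : HasDerivAt (ST k) (CT k x) x := by
  unfold ST CT
  apply HasDerivAt.fun_sum
  intro j _
  have h := ((hasDerivAt_pow (2 * j + 1) x).div_const ((2 * j + 1).factorial : ℝ)).const_mul
    ((-1 : ℝ) ^ j)
  refine h.congr_deriv ?_
  rw [Nat.factorial_succ, Nat.add_sub_cancel]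
  have : (0 : ℝ) < (2 * j).factorial := by exact_mod_cast Nat.factorial_pos _
  push_cast
  field_simp

lemma hd_CT (k : ℕ) (x : ℝ) : HasDerivAt (CT (k + 1)) (-ST k x) x := by
  have e : CT (k + 1) = fun x => (∑ j ∈ Finset.range (k + 1),
      (-1 : ℝ) ^ (j + 1) * (x ^ (2 * j + 2) / (2 * j + 2).factorial)) + 1 := by
    funext y
    unfold CT
    rw [Finset.sum_range_succ' _ (k + 1)]
    simp [mul_add]
  rw [e]
  have h1 : HasDerivAt (fun x : ℝ => ∑ j ∈ Finset.range (k + 1),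
      (-1 : ℝ) ^ (j + 1) * (x ^ (2 * j + 2) / (2 * j + 2).factorial)) (-ST k x) x := by
    unfold ST
    rw [← Finset.sum_neg_distrib]
    apply HasDerivAt.fun_sum
    intro j _
    have h := ((hasDerivAt_pow (2 * j + 2) x).div_const ((2 * j + 2).factorial : ℝ)).const_mul
      ((-1 : ℝ) ^ (j + 1))
    refine h.congr_deriv ?_
    rw [Nat.factorial_succ (2 * j + 1), show 2 * j + 2 - 1 = 2 * j + 1 by omega]
    have : (0 : ℝ) < (2 * j + 1).factorial := by exact_mod_cast Nat.factorial_pos _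
    push_cast
    field_simp
    ring
  exact h1.add_const 1

lemma taylor (k : ℕ) : ∀ x : ℝ, 0 ≤ x → 0 ≤ (-1 : ℝ) ^ (k + 1) * (Real.cos x - CT k x) ∧
    0 ≤ (-1 : ℝ) ^ (k + 1) * (Real.sin x - ST k x) := by
  induction k with
  | zero =>
    intro x hx
    have h1 := Real.cos_le_one x
    have h2 := Real.sin_le hx
    unfold CT ST
    simp
    constructor <;> linarith
  | succ k ih =>
    have hc : ∀ x : ℝ, 0 ≤ x → 0 ≤ (-1 : ℝ) ^ (k + 1 + 1) * (Real.cos x - CT (k + 1) x) := by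
      intro x hx
      refine nonneg_of_deriv (f := fun x => (-1 : ℝ) ^ (k + 1 + 1) * (Real.cos x - CT (k + 1) x))
        (f' := fun x => (-1 : ℝ) ^ (k + 1 + 1) * (-Real.sin x - -ST k x)) ?_ ?_ ?_ hx
      · intro y
        exact ((Real.hasDerivAt_cos y).sub (hd_CT k y)).const_mul _
      · have : CT (k + 1) 0 = 1 := by
          unfold CT
          rw [Finset.sum_range_succ']
          simp
        simp [this]
      · intro y hy
        have := (ih y hy).2
        refine this.trans (le_of_eq ?_)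
        show _ = (-1 : ℝ) ^ (k + 1 + 1) * (-Real.sin y - -ST k y)
        rw [pow_succ _ (k + 1)]
        ring
    intro x hx
    refine ⟨hc x hx, ?_⟩
    refine nonneg_of_deriv (f := fun x => (-1 : ℝ) ^ (k + 1 + 1) * (Real.sin x - ST (k + 1) x))
      (f' := fun x => (-1 : ℝ) ^ (k + 1 + 1) * (Real.cos x - CT (k + 1) x)) ?_ ?_ hc hx
    · intro y
      exact ((Real.hasDerivAt_sin y).sub (hd_ST (k + 1) y)).const_mul _
    · have : ST (k + 1) 0 = 0 := by
        unfold ST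
        apply Finset.sum_eq_zero
        intro j _
        simp
      simp [this]

/-- the cosine from below -/
lemma cos_ge {x : ℝ} (hx : 0 ≤ x) : 1 - Real.cos x ≤ x ^ 2 / 2 - x ^ 4 / 24 + x ^ 6 / 720 -
    x ^ 8 / 40320 + x ^ 10 / 3628800 - x ^ 12 / 479001600 + x ^ 14 / 87178291200 := by
  have h := (taylor 7 x hx).1
  unfold CT at h
  simp only [Finset.sum_range_succ, Finset.sum_range_zero] at h
  norm_num [Nat.factorial] at h
  linarith

lemma ii {a b : ℝ} (ha : 0 ≤ a) (hab : a ≤ b) : IntervalIntegrable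
    (fun α => (1 - Real.cos (14 * Real.pi * α)) / α) volume a b := by
  have hpi := Real.pi_pos
  rw [intervalIntegrable_iff_integrableOn_Ioc_of_le hab]
  refine Measure.integrableOn_of_bounded (M := (14 * Real.pi) ^ 2 / 2 * b) (by simp) ?_ ?_
  · exact (Measurable.aestronglyMeasurable (by fun_prop))
  · refine (ae_restrict_iff' measurableSet_Ioc).2 (ae_of_all _ fun α hα => ?_)
    have hα0 : 0 < α := lt_of_le_of_lt ha hα.1
    have h1 := Real.cos_le_one (14 * Real.pi * α)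
    have h2 := Real.one_sub_sq_div_two_le_cos (x := 14 * Real.pi * α)
    rw [Real.norm_eq_abs, abs_of_nonneg (div_nonneg (by linarith) hα0.le), div_le_iff₀ hα0]
    have h3 : (14 * Real.pi * α) ^ 2 / 2 = (14 * Real.pi) ^ 2 / 2 * α * α := by ring
    have h4 : (14 * Real.pi) ^ 2 / 2 * α * α ≤ (14 * Real.pi) ^ 2 / 2 * b * α := by
      apply mul_le_mul_of_nonneg_right _ hα0.le
      exact mul_le_mul_of_nonneg_left hα.2 (by positivity)
    linarith

/-- the integral over the first period -/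
lemma first : ∫ α in (0 : ℝ)..(1 / 7), (1 - Real.cos (14 * Real.pi * α)) / α ≤ 2.4536 := by
  obtain ⟨p1, p2⟩ := pi_sq
  have hpi := Real.pi_pos
  obtain ⟨P, hP⟩ : ∃ P : ℝ → ℝ, P = fun α => (14 * Real.pi) ^ 2 * α / 2 -
      (14 * Real.pi) ^ 4 * α ^ 3 / 24 + (14 * Real.pi) ^ 6 * α ^ 5 / 720 -
      (14 * Real.pi) ^ 8 * α ^ 7 / 40320 + (14 * Real.pi) ^ 10 * α ^ 9 / 3628800 -
      (14 * Real.pi) ^ 12 * α ^ 11 / 479001600 + (14 * Real.pi) ^ 14 * α ^ 13 / 87178291200 :=
    ⟨_, rfl⟩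
  have hle : ∀ α ∈ Icc (0 : ℝ) (1 / 7), (1 - Real.cos (14 * Real.pi * α)) / α ≤ P α := by
    intro α hα
    rcases eq_or_lt_of_le hα.1 with h0 | h0
    · rw [← h0, hP]
      simp
    · rw [div_le_iff₀ h0]
      have h1 := cos_ge (x := 14 * Real.pi * α) (by positivity)
      refine h1.trans (le_of_eq ?_)
      rw [hP]
      ring
  have hPc : Continuous P := by
    rw [hP]
    fun_prop
  have hi := ii le_rfl (show (0 : ℝ) ≤ 1 / 7 by norm_num)
  refine (intervalIntegral.integral_mono_on (by norm_num) hi (hPc.intervalIntegrable _ _) hle).trans ?_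
  have hd : ∀ x ∈ uIcc (0 : ℝ) (1 / 7), HasDerivAt (fun α : ℝ => (14 * Real.pi) ^ 2 * α ^ 2 / 4 -
      (14 * Real.pi) ^ 4 * α ^ 4 / 96 + (14 * Real.pi) ^ 6 * α ^ 6 / 4320 -
      (14 * Real.pi) ^ 8 * α ^ 8 / 322560 + (14 * Real.pi) ^ 10 * α ^ 10 / 36288000 -
      (14 * Real.pi) ^ 12 * α ^ 12 / 5748019200 + (14 * Real.pi) ^ 14 * α ^ 14 / 1220496076800)
      (P x) x := by
    intro x _
    have g2 := ((hasDerivAt_pow 2 x).const_mul ((14 * Real.pi) ^ 2)).div_const 4
    have g4 := ((hasDerivAt_pow 4 x).const_mul ((14 * Real.pi) ^ 4)).div_const 96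
    have g6 := ((hasDerivAt_pow 6 x).const_mul ((14 * Real.pi) ^ 6)).div_const 4320
    have g8 := ((hasDerivAt_pow 8 x).const_mul ((14 * Real.pi) ^ 8)).div_const 322560
    have g10 := ((hasDerivAt_pow 10 x).const_mul ((14 * Real.pi) ^ 10)).div_const 36288000
    have g12 := ((hasDerivAt_pow 12 x).const_mul ((14 * Real.pi) ^ 12)).div_const 5748019200
    have g14 := ((hasDerivAt_pow 14 x).const_mul ((14 * Real.pi) ^ 14)).div_const 1220496076800
    have g := (((((g2.sub g4).add g6).sub g8).add g10).sub g12).add g14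
    refine g.congr_deriv ?_
    rw [hP]
    norm_num
    ring
  rw [intervalIntegral.integral_eq_sub_of_hasDerivAt hd (hPc.intervalIntegrable _ _)]
  obtain ⟨p, hp⟩ : ∃ p : ℝ, p = Real.pi ^ 2 := ⟨_, rfl⟩
  rw [← hp] at p1 p2
  have e : (14 * Real.pi) ^ 2 * (1 / 7 : ℝ) ^ 2 / 4 -
      (14 * Real.pi) ^ 4 * (1 / 7 : ℝ) ^ 4 / 96 + (14 * Real.pi) ^ 6 * (1 / 7 : ℝ) ^ 6 / 4320 -
      (14 * Real.pi) ^ 8 * (1 / 7 : ℝ) ^ 8 / 322560 + (14 * Real.pi) ^ 10 * (1 / 7 : ℝ) ^ 10 / 36288000 -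
      (14 * Real.pi) ^ 12 * (1 / 7 : ℝ) ^ 12 / 5748019200 +
      (14 * Real.pi) ^ 14 * (1 / 7 : ℝ) ^ 14 / 1220496076800 =
      p - p ^ 2 / 6 + 2 * p ^ 3 / 135 - p ^ 4 / 1260 + 2 * p ^ 5 / 70875 - 2 * p ^ 6 / 2806650 +
        4 * p ^ 7 / 297972675 := by
    rw [hp]
    ring
  rw [e]
  have q2 : (9.8696 : ℝ) ^ 2 ≤ p ^ 2 := pow_le_pow_left₀ (by norm_num) p1.le 2
  have q3 : p ^ 3 ≤ (9.86961 : ℝ) ^ 3 := pow_le_pow_left₀ (by linarith) p2.le 3
  have q4 : (9.8696 : ℝ) ^ 4 ≤ p ^ 4 := pow_le_pow_left₀ (by norm_num) p1.le 4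
  have q5 : p ^ 5 ≤ (9.86961 : ℝ) ^ 5 := pow_le_pow_left₀ (by linarith) p2.le 5
  have q6 : (9.8696 : ℝ) ^ 6 ≤ p ^ 6 := pow_le_pow_left₀ (by norm_num) p1.le 6
  have q7 : p ^ 7 ≤ (9.86961 : ℝ) ^ 7 := pow_le_pow_left₀ (by linarith) p2.le 7
  norm_num at q2 q3 q4 q5 q6 q7 ⊢
  linarith

/-- the integral over the other periods -/
lemma second : ∫ α in (1 / 7 : ℝ)..1, (1 - Real.cos (14 * Real.pi * α)) / α ≤ 1.9462 := by
  have hpi := Real.pi_pos
  obtain ⟨b, hb⟩ : ∃ b : ℝ, b = 14 * Real.pi := ⟨_, rfl⟩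
  have hb0 : 0 < b := by rw [hb]; positivity
  rw [← hb]
  have hne : ∀ x ∈ uIcc (1 / 7 : ℝ) 1, 0 < x := fun x hx => by
    rw [uIcc_of_le (by norm_num)] at hx
    have := hx.1
    linarith
  have hd : ∀ x ∈ uIcc (1 / 7 : ℝ) 1, HasDerivAt (fun α : ℝ => Real.log α -
      (Real.sin (b * α) / (b * α) + (1 - Real.cos (b * α)) / (b ^ 2 * α ^ 2)))
      ((1 - Real.cos (b * x)) / x + 2 / (b ^ 2 * x ^ 3) * (1 - Real.cos (b * x))) x := by
    intro x hx
    have hx0 := hne x hx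
    have hbx : HasDerivAt (fun α : ℝ => b * α) b x := by
      simpa using (hasDerivAt_id x).const_mul b
    have h1 := Real.hasDerivAt_log hx0.ne'
    have h2 := (hbx.sin).div hbx (by positivity)
    have h3 : HasDerivAt (fun α : ℝ => b ^ 2 * α ^ 2) (b ^ 2 * (2 * x)) x := by
      have := (hasDerivAt_pow 2 x).const_mul (b ^ 2)
      refine this.congr_deriv ?_
      norm_num
    have h4 := ((hbx.cos).const_sub 1).div h3 (by positivity)
    have h5 := h1.sub (h2.add h4)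
    refine h5.congr_deriv ?_
    field_simp
    ring
  have hc : ContinuousOn (fun x => (1 - Real.cos (b * x)) / x +
      2 / (b ^ 2 * x ^ 3) * (1 - Real.cos (b * x))) (uIcc (1 / 7 : ℝ) 1) := by
    refine ContinuousOn.add ?_ ?_
    · exact ContinuousOn.div (by fun_prop) (by fun_prop) fun x hx => (hne x hx).ne'
    · refine ContinuousOn.mul ?_ (by fun_prop)
      exact ContinuousOn.div (by fun_prop) (by fun_prop) fun x hx => by
        have := hne x hx
        positivity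
  have hc1 : ContinuousOn (fun x => (1 - Real.cos (b * x)) / x) (uIcc (1 / 7 : ℝ) 1) :=
    ContinuousOn.div (by fun_prop) (by fun_prop) fun x hx => (hne x hx).ne'
  have h1 := intervalIntegral.integral_eq_sub_of_hasDerivAt hd hc.intervalIntegrable
  have h2 : ∫ α in (1 / 7 : ℝ)..1, (1 - Real.cos (b * α)) / α ≤ ∫ x in (1 / 7 : ℝ)..1,
      ((1 - Real.cos (b * x)) / x + 2 / (b ^ 2 * x ^ 3) * (1 - Real.cos (b * x))) := by
    refine intervalIntegral.integral_mono_on (by norm_num) hc1.intervalIntegrable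
      hc.intervalIntegrable fun x hx => ?_
    have hx0 := hne x (by rwa [uIcc_of_le (by norm_num)])
    have : 0 ≤ 2 / (b ^ 2 * x ^ 3) * (1 - Real.cos (b * x)) :=
      mul_nonneg (by positivity) (by linarith [Real.cos_le_one (b * x)])
    linarith
  refine h2.trans ?_
  rw [h1]
  have s1 : Real.sin (b * 1) = 0 := by
    rw [hb, mul_one]
    exact_mod_cast Real.sin_nat_mul_pi 14
  have s2 : Real.sin (b * (1 / 7)) = 0 := by
    rw [hb, show 14 * Real.pi * (1 / 7) = 2 * Real.pi by ring, Real.sin_two_pi]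
  have s3 : Real.cos (b * 1) = 1 := by
    rw [hb, mul_one, show 14 * Real.pi = ((7 : ℕ) : ℝ) * (2 * Real.pi) by push_cast; ring,
      Real.cos_nat_mul_two_pi]
  have s4 : Real.cos (b * (1 / 7)) = 1 := by
    rw [hb, show 14 * Real.pi * (1 / 7) = 2 * Real.pi by ring, Real.cos_two_pi]
  rw [s1, s2, s3, s4]
  have h7 : Real.log 7 ≤ 1.9462 := by
    have h3 : Real.log ((7 : ℝ) ^ 26) ≤ Real.log (2 ^ 73) :=
      Real.log_le_log (by norm_num) (by norm_num)
    rw [Real.log_pow, Real.log_pow] at h3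
    have h4 := Real.log_two_lt_d9
    push_cast at h3
    linarith
  have e : Real.log (1 / 7) = -Real.log 7 := by rw [one_div, Real.log_inv]
  rw [Real.log_one, e]
  norm_num
  norm_num at h7
  linarith

/-- the tail -/
lemma third : ∫ α in Ioi (1 : ℝ), (1 - Real.cos (14 * Real.pi * α)) / α ^ 2 ≤ 1.0228 := by
  have hpi := Real.pi_gt_d6
  obtain ⟨b, hb⟩ : ∃ b : ℝ, b = 14 * Real.pi := ⟨_, rfl⟩
  have hb0 : 43.98 < b := by rw [hb]; linarith
  have hi : IntegrableOn (fun α => (1 - Real.cos (b * α)) / α ^ 2) (Ioi 1) := by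
    have h1 := wb_on (β := 7) (by norm_num) one_pos
    rw [show 2 * Real.pi * 7 = b by rw [hb]; ring] at h1
    exact h1
  rw [← hb]
  have h1 := intervalIntegral_tendsto_integral_Ioi 1 hi tendsto_id
  refine le_of_tendsto h1 ?_
  filter_upwards [eventually_ge_atTop 1] with N hN
  show ∫ α in (1 : ℝ)..N, (1 - Real.cos (b * α)) / α ^ 2 ≤ 1.0228
  have hne : ∀ x ∈ uIcc (1 : ℝ) N, 0 < x := fun x hx => by
    rw [uIcc_of_le hN] at hx
    have := hx.1
    linarith
  have hd : ∀ x ∈ uIcc (1 : ℝ) N, HasDerivAt (fun α : ℝ => -α⁻¹ - (1 + Real.sin (b * α)) / b / α ^ 2)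
      ((1 - Real.cos (b * x)) / x ^ 2 + 2 * (1 + Real.sin (b * x)) / (b * x ^ 3)) x := by
    intro x hx
    have hx0 := hne x hx
    have hbx : HasDerivAt (fun α : ℝ => b * α) b x := by
      simpa using (hasDerivAt_id x).const_mul b
    have g1 := (hasDerivAt_inv hx0.ne').neg
    have g2 := (((hbx.sin).const_add 1).div_const b).div (hasDerivAt_pow 2 x) (by positivity)
    refine (g1.sub g2).congr_deriv ?_
    have : b ≠ 0 := by linarith
    field_simp
    ring
  have hc : ContinuousOn (fun x => (1 - Real.cos (b * x)) / x ^ 2 +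
      2 * (1 + Real.sin (b * x)) / (b * x ^ 3)) (uIcc (1 : ℝ) N) := by
    refine ContinuousOn.add ?_ ?_
    · exact ContinuousOn.div (by fun_prop) (by fun_prop) fun x hx => by
        have := hne x hx
        positivity
    · exact ContinuousOn.div (by fun_prop) (by fun_prop) fun x hx => by
        have := hne x hx
        positivity
  have hc1 : ContinuousOn (fun x => (1 - Real.cos (b * x)) / x ^ 2) (uIcc (1 : ℝ) N) :=
    ContinuousOn.div (by fun_prop) (by fun_prop) fun x hx => by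
      have := hne x hx
      positivity
  have h2 := intervalIntegral.integral_eq_sub_of_hasDerivAt hd hc.intervalIntegrable
  have h3 : ∫ α in (1 : ℝ)..N, (1 - Real.cos (b * α)) / α ^ 2 ≤ ∫ x in (1 : ℝ)..N,
      ((1 - Real.cos (b * x)) / x ^ 2 + 2 * (1 + Real.sin (b * x)) / (b * x ^ 3)) := by
    refine intervalIntegral.integral_mono_on hN hc1.intervalIntegrable
      hc.intervalIntegrable fun x hx => ?_
    have hx0 := hne x (by rwa [uIcc_of_le hN])
    have h4 := Real.neg_one_le_sin (b * x)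
    have : 0 ≤ 2 * (1 + Real.sin (b * x)) / (b * x ^ 3) := by
      apply div_nonneg (by linarith)
      positivity
    linarith
  refine h3.trans ?_
  rw [h2]
  have s1 : Real.sin (b * 1) = 0 := by
    rw [hb, mul_one]
    exact_mod_cast Real.sin_nat_mul_pi 14
  rw [s1]
  have h5 : 0 ≤ (1 + Real.sin (b * N)) / b / N ^ 2 := by
    have h4 := Real.neg_one_le_sin (b * N)
    apply div_nonneg (div_nonneg (by linarith) (by linarith)) (by positivity)
  have h6 : 0 < N⁻¹ := by positivity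
  have h7 : 1 / b ≤ 0.0228 := by
    rw [div_le_iff₀ (by linarith)]
    linarith
  norm_num
  norm_num at h7
  linarith

/-- the number variance of the GUE at `7` -/
theorem gue7 : (7 : ℝ) - 2 * (∫ x in (0 : ℝ)..7, (7 - x) *
    (Real.sin (Real.pi * x) / (Real.pi * x)) ^ 2) ≤ 0.5495 := by
  obtain ⟨p1, p2⟩ := pi_sq
  have h7 : (0 : ℝ) < 7 := by norm_num
  rw [gue_eq h7, half (wb_mn_int h7) (fun x => by
    show wb 7 (-x) * mn (-x) = wb 7 x * mn x
    rw [NV.wb_even, mn_even]) 1, wb_mn_one, wb_on_eq h7 one_pos]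
  have e1 : ∫ α in (0 : ℝ)..1, wb 7 α * mn α =
      1 / (2 * Real.pi ^ 2) * ∫ α in (0 : ℝ)..1, (1 - Real.cos (14 * Real.pi * α)) / α := by
    rw [← intervalIntegral.integral_const_mul]
    refine intervalIntegral.integral_congr_ae (ae_of_all _ fun x hx => ?_)
    rw [uIoc_of_le zero_le_one] at hx
    rw [wb_eq h7 hx.1.ne']
    unfold Pool.Agent.Y749.Rig.mn
    rw [abs_of_pos hx.1, min_eq_left hx.2, show 2 * Real.pi * 7 * x = 14 * Real.pi * x by ring]
    have := hx.1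
    field_simp
  rw [e1, ← intervalIntegral.integral_add_adjacent_intervals
    (ii le_rfl (show (0 : ℝ) ≤ 1 / 7 by norm_num))
    (ii (show (0 : ℝ) ≤ 1 / 7 by norm_num) (show (1 / 7 : ℝ) ≤ 1 by norm_num)),
    show 2 * Real.pi * 7 = 14 * Real.pi by ring]
  have h1 := first
  have h2 := second
  have h3 := third
  have hpi : 0 < 1 / (2 * Real.pi ^ 2) := by positivity
  have h4 : 1 / (2 * Real.pi ^ 2) ≤ 1 / (2 * 9.8696) := by
    apply one_div_le_one_div_of_le (by norm_num)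
    linarith
  obtain ⟨A, hA⟩ : ∃ A : ℝ, A = (∫ α in (0 : ℝ)..(1 / 7), (1 - Real.cos (14 * Real.pi * α)) / α) +
      ∫ α in (1 / 7 : ℝ)..1, (1 - Real.cos (14 * Real.pi * α)) / α := ⟨_, rfl⟩
  obtain ⟨B, hB⟩ : ∃ B : ℝ, B = ∫ α in Ioi (1 : ℝ), (1 - Real.cos (14 * Real.pi * α)) / α ^ 2 :=
    ⟨_, rfl⟩
  rw [← hA, ← hB]
  rw [← hB] at h3
  have h5 : A + B ≤ 5.4226 := by rw [hA]; linarith
  calc 2 * (1 / (2 * Real.pi ^ 2) * A + 1 / (2 * Real.pi ^ 2) * B) =
      1 / (2 * Real.pi ^ 2) * (2 * (A + B)) := by ring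
    _ ≤ 1 / (2 * Real.pi ^ 2) * (2 * 5.4226) := by
      apply mul_le_mul_of_nonneg_left (by linarith) hpi.le
    _ ≤ 1 / (2 * 9.8696) * (2 * 5.4226) := by
      apply mul_le_mul_of_nonneg_right h4 (by norm_num)
    _ ≤ 0.5495 := by norm_num

end Run7.h719.CD
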