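import Pool.Agent.Run7.h719.SM.Tail
import Pool.Agent.Run7.h719.SM.Gap
import Pool.Agent.Y747.Gp

/-!
# Comparison of the normalisations of the gaps
-/

open Filter Topology Set

namespace Run7.h719.CD

open SG (ord NZ)
open Pool.Agent.Y747 (dl)
open Pool.Agent.Y749.Rig (nT nT_pos)
open Run7.h719.SM (dT dl_le_dlt)

lemma ord_ratio (RH : RiemannHypothesis) : ∃ K : ℝ, 1 ≤ K ∧ ∀ n : ℕ, 1 ≤ n →
    ord (n + 1) ≤ K * ord n := by
  have hpi := Real.pi_pos
  obtain ⟨T0, hT0, hup⟩ := Pool.Agent.Y747.NZ_upper RH (1 / 4) (by norm_num)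
  obtain ⟨T1, hlow⟩ := W200.HW.NZ_lower (1 / 4) (by norm_num)
  have hlog : ∀ᶠ T : ℝ in atTop, 8 * Real.pi ≤ Real.log T :=
    Real.tendsto_log_atTop.eventually_ge_atTop _
  have hev : ∀ᶠ T : ℝ in atTop, NZ T + 1 ≤ NZ (2 * T) := by
    filter_upwards [eventually_ge_atTop T0, eventually_ge_atTop T1, eventually_ge_atTop 1, hlog]
      with T h1 h2 h3 h4
    have a1 := hup T h1
    have a2 := hlow (2 * T) (by linarith)
    have a3 : Real.log T ≤ Real.log (2 * T) := Real.log_le_log (by linarith) (by linarith)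
    have a4 : (1 - 1 / 4) * (2 * T / (2 * Real.pi) * Real.log T) ≤
        (1 - 1 / 4) * (2 * T / (2 * Real.pi) * Real.log (2 * T)) := by gcongr
    have a5 : 1 ≤ 1 / 4 * (T * Real.log T / (2 * Real.pi)) := by
      have : 8 * Real.pi ≤ T * Real.log T := by nlinarith
      rw [mul_div_assoc', le_div_iff₀ (by positivity)]
      linarith
    have a6 : (1 - 1 / 4) * (2 * T / (2 * Real.pi) * Real.log T) =
        3 / 2 * (T * Real.log T / (2 * Real.pi)) := by ring
    have : (NZ T : ℝ) + 1 ≤ NZ (2 * T) := by linarith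
    exact_mod_cast this
  obtain ⟨n0, hn0⟩ := (SG.ord_tendsto.eventually hev).exists_forall_of_atTop
  refine ⟨2 + ∑ n ∈ Finset.range n0, |ord (n + 1) / ord n|, ?_, fun n hn => ?_⟩
  · have : 0 ≤ ∑ n ∈ Finset.range n0, |ord (n + 1) / ord n| :=
      Finset.sum_nonneg fun _ _ => abs_nonneg _
    linarith
  · have hp := SG.ord_pos hn
    have hS : 0 ≤ ∑ n ∈ Finset.range n0, |ord (n + 1) / ord n| :=
      Finset.sum_nonneg fun _ _ => abs_nonneg _
    rcases Nat.lt_or_ge n n0 with h | h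
    · have h1 := Finset.single_le_sum (f := fun n => |ord (n + 1) / ord n|)
        (fun i _ => abs_nonneg _) (Finset.mem_range.2 h)
      have h2 : ord (n + 1) / ord n ≤ 2 + ∑ n ∈ Finset.range n0, |ord (n + 1) / ord n| := by
        have := le_abs_self (ord (n + 1) / ord n)
        linarith
      rwa [div_le_iff₀ hp] at h2
    · have h1 := hn0 n h
      have h2 : n ≤ NZ (ord n) := (SG.ord_le_iff hn _).1 le_rfl
      have h3 : ord (n + 1) ≤ 2 * ord n := (SG.ord_le_iff (by omega) _).2 (by omega)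
      have : 0 ≤ (∑ n ∈ Finset.range n0, |ord (n + 1) / ord n|) * ord n := mul_nonneg hS hp.le
      linarith

lemma dlt_sub (RH : RiemannHypothesis) : ∃ C : ℝ, 0 ≤ C ∧ ∀ n : ℕ, 1 ≤ n →
    LG.dlt n - dl n ≤ C * (ord (n + 1) - ord n) := by
  have hpi := Real.pi_pos
  obtain ⟨K, hK, h⟩ := ord_ratio RH
  refine ⟨(|Real.log (2 * Real.pi)| + K) / (2 * Real.pi), by positivity, fun n hn => ?_⟩
  have hp := SG.ord_pos hn
  have hm := SG.ord_mono hn (show n ≤ n + 1 by omega)
  have hr := h n hn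
  obtain ⟨a, ha⟩ : ∃ a : ℝ, a = ord n := ⟨_, rfl⟩
  obtain ⟨b, hb⟩ : ∃ b : ℝ, b = ord (n + 1) := ⟨_, rfl⟩
  have e : LG.dlt n - dl n = ((b - a) * Real.log (2 * Real.pi) + b * Real.log (b / a)) /
      (2 * Real.pi) := by
    unfold LG.dlt Pool.Agent.Y747.dl
    rw [← ha, ← hb]
    rw [← ha] at hp hm
    rw [← hb] at hm
    rw [Real.log_div hp.ne' (by positivity), Real.log_div (by linarith) hp.ne']
    field_simp
    ring
  rw [e, ← ha, ← hb, div_mul_eq_mul_div]
  rw [← ha] at hp hm hr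
  rw [← hb] at hm hr
  have h1 : Real.log (b / a) ≤ b / a - 1 := Real.log_le_sub_one_of_pos (by
    apply div_pos (by linarith) hp)
  have h2 : b * Real.log (b / a) ≤ K * (b - a) := by
    have hb0 : 0 < b := by linarith
    calc b * Real.log (b / a) ≤ b * (b / a - 1) := by gcongr
      _ = b / a * (b - a) := by field_simp
      _ ≤ K * (b - a) := by
        apply mul_le_mul_of_nonneg_right _ (by linarith)
        rw [div_le_iff₀ hp]
        exact hr
  have h3 : (b - a) * Real.log (2 * Real.pi) ≤ |Real.log (2 * Real.pi)| * (b - a) := by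
    rw [mul_comm]
    apply mul_le_mul_of_nonneg_right (le_abs_self _) (by linarith)
  gcongr
  linarith

lemma tel (f : ℕ → ℝ) (M : ℕ) : ∑ n ∈ Finset.Icc 1 M, (f (n + 1) - f n) = f (M + 1) - f 1 := by
  induction M with
  | zero => simp
  | succ M ih =>
    rw [Finset.sum_Icc_succ_top (by omega), ih]
    ring

/-- `T = o(N)` -/
lemma T_small (ε : ℝ) (hε : 0 < ε) : ∀ᶠ N : ℕ in atTop, ord (N + 1) ≤ ε * N := by
  have hpi := Real.pi_pos
  have hlim : Tendsto (fun N : ℕ => ord (N + 1)) atTop atTop :=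
    SG.ord_tendsto.comp (tendsto_add_atTop_nat 1)
  have hlog : Tendsto (fun N : ℕ => Real.log (ord (N + 1))) atTop atTop :=
    Real.tendsto_log_atTop.comp hlim
  filter_upwards [W249.TCF.T_le 1 one_pos le_rfl, hlog.eventually_ge_atTop (4 * Real.pi / ε),
    hlim.eventually_ge_atTop 1] with N h1 h2 h3
  have h4 : 4 * Real.pi ≤ ε * Real.log (ord (N + 1)) := by
    rw [div_le_iff₀ hε] at h2
    linarith
  have h5 : ord (N + 1) * (4 * Real.pi) ≤ ord (N + 1) * (ε * Real.log (ord (N + 1))) :=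
    mul_le_mul_of_nonneg_left h4 (by linarith)
  have h6 : ord (N + 1) * Real.log (ord (N + 1)) ≤ (1 + 1) * N * (2 * Real.pi) := by
    have h7 : ord (N + 1) * Real.log (ord (N + 1)) / (2 * Real.pi) ≤ (1 + 1) * N := by
      refine le_trans (le_of_eq ?_) h1
      ring
    rwa [div_le_iff₀ (by positivity)] at h7
  have h8 : ε * (ord (N + 1) * Real.log (ord (N + 1))) ≤ ε * ((1 + 1) * N * (2 * Real.pi)) :=
    mul_le_mul_of_nonneg_left h6 hε.le
  have h9 : ord (N + 1) * (4 * Real.pi) ≤ (ε * N) * (4 * Real.pi) := by nlinarith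
  exact le_of_mul_le_mul_right h9 (by positivity)

theorem sum_abs (RH : RiemannHypothesis) (ε : ℝ) (hε : 0 < ε) :
    ∀ᶠ N : ℕ in atTop, ∑ n ∈ Finset.Icc 1 N, |LG.dlt n - dl n| ≤ ε * N := by
  obtain ⟨C, hC, h⟩ := dlt_sub RH
  filter_upwards [T_small (ε / (C + 1)) (by positivity)] with N h1
  have h2 : ∑ n ∈ Finset.Icc 1 N, |LG.dlt n - dl n| ≤
      ∑ n ∈ Finset.Icc 1 N, C * (ord (n + 1) - ord n) := by
    refine Finset.sum_le_sum fun n hn => ?_
    rw [Finset.mem_Icc] at hn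
    rw [abs_of_nonneg (sub_nonneg.2 (dl_le_dlt hn.1))]
    exact h n hn.1
  refine h2.trans ?_
  rw [← Finset.mul_sum, tel]
  have h3 := SG.ord_pos (n := 1) le_rfl
  have hN : (0 : ℝ) ≤ N := Nat.cast_nonneg N
  calc C * (ord (N + 1) - ord 1) ≤ C * (ε / (C + 1) * N) := by
        apply mul_le_mul_of_nonneg_left (by linarith) hC
    _ = (C / (C + 1)) * (ε * N) := by field_simp
    _ ≤ 1 * (ε * N) := by
      apply mul_le_mul_of_nonneg_right _ (by positivity)
      rw [div_le_one (by positivity)]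
      linarith
    _ = ε * N := one_mul _

lemma dl_le_dT {N n : ℕ} (hn : n ∈ Finset.Icc 1 N) (hT : 1 ≤ ord (N + 1)) :
    dl n ≤ dT (ord (N + 1)) n := by
  have hpi := Real.pi_gt_three
  rw [Finset.mem_Icc] at hn
  have hp := SG.ord_pos hn.1
  have hd : 0 ≤ ord (n + 1) - ord n := sub_nonneg.2 (SG.ord_mono hn.1 (by omega))
  have hle : ord n ≤ ord (N + 1) := SG.ord_mono hn.1 (by omega)
  have hl : Real.log (ord n / (2 * Real.pi)) ≤ Real.log (ord (N + 1)) := by
    apply Real.log_le_log (by positivity)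
    refine (div_le_self hp.le (by linarith)).trans hle
  unfold Pool.Agent.Y747.dl SM.dT
  calc (ord (n + 1) - ord n) / (2 * Real.pi) * Real.log (ord n / (2 * Real.pi)) ≤
      (ord (n + 1) - ord n) / (2 * Real.pi) * Real.log (ord (N + 1)) := by gcongr
    _ = _ := by ring

theorem sum_dT (RH : RiemannHypothesis) (ε : ℝ) (hε : 0 < ε) :
    ∀ᶠ N : ℕ in atTop, ∑ n ∈ Finset.Icc 1 N, |dT (ord (N + 1)) n - dl n| ≤ ε * N := by
  have hpi := Real.pi_pos
  have hlim : Tendsto (fun N : ℕ => ord (N + 1)) atTop atTop :=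
    SG.ord_tendsto.comp (tendsto_add_atTop_nat 1)
  obtain ⟨c, hc⟩ : ∃ c : ℝ, c = |ord 1 * Real.log (ord 1) / (2 * Real.pi)| := ⟨_, rfl⟩
  have hc0 : 0 ≤ c := by rw [hc]; exact abs_nonneg _
  filter_upwards [sum_abs RH (ε / 2) (by positivity), hlim.eventually_ge_atTop 1,
    (tendsto_natCast_atTop_atTop (R := ℝ)).eventually_ge_atTop (c / (ε / 2))] with N h1 h2 h3
  obtain ⟨T, hT⟩ : ∃ T : ℝ, T = ord (N + 1) := ⟨_, rfl⟩
  have hlog : 0 ≤ Real.log T := Real.log_nonneg (by rw [hT]; exact h2)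
  have e1 : ∑ n ∈ Finset.Icc 1 N, |dT (ord (N + 1)) n - dl n| =
      ∑ n ∈ Finset.Icc 1 N, dT (ord (N + 1)) n - ∑ n ∈ Finset.Icc 1 N, dl n := by
    rw [← Finset.sum_sub_distrib]
    refine Finset.sum_congr rfl fun n hn => ?_
    exact abs_of_nonneg (sub_nonneg.2 (dl_le_dT hn h2))
  have e2 : ∑ n ∈ Finset.Icc 1 N, dT (ord (N + 1)) n =
      (T - ord 1) * Real.log T / (2 * Real.pi) := by
    have : ∀ n, dT (ord (N + 1)) n = (ord (n + 1) - ord n) * (Real.log T / (2 * Real.pi)) := by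
      intro n
      unfold SM.dT
      rw [hT]
      ring
    simp only [this]
    rw [← Finset.sum_mul, tel, ← hT]
    ring
  have e3 : ∑ n ∈ Finset.Icc 1 N, LG.dlt n =
      (T * Real.log T - ord 1 * Real.log (ord 1)) / (2 * Real.pi) := by
    have : ∀ n, LG.dlt n = (fun n => ord n * Real.log (ord n) / (2 * Real.pi)) (n + 1) -
        (fun n => ord n * Real.log (ord n) / (2 * Real.pi)) n := by
      intro n
      unfold LG.dlt
      ring
    simp only [this]
    rw [tel fun n => ord n * Real.log (ord n) / (2 * Real.pi), ← hT]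
    ring
  have e4 : ∑ n ∈ Finset.Icc 1 N, |LG.dlt n - dl n| =
      ∑ n ∈ Finset.Icc 1 N, LG.dlt n - ∑ n ∈ Finset.Icc 1 N, dl n := by
    rw [← Finset.sum_sub_distrib]
    refine Finset.sum_congr rfl fun n hn => ?_
    exact abs_of_nonneg (sub_nonneg.2 (dl_le_dlt (Finset.mem_Icc.1 hn).1))
  rw [e4, e3] at h1
  rw [e1, e2]
  have h4 := SG.ord_pos (n := 1) le_rfl
  have h5 : (T - ord 1) * Real.log T / (2 * Real.pi) ≤ T * Real.log T / (2 * Real.pi) := by
    gcongr
    linarith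
  have h6 : ord 1 * Real.log (ord 1) / (2 * Real.pi) ≤ c := by rw [hc]; exact le_abs_self _
  have h7 : c ≤ ε / 2 * N := by
    rw [div_le_iff₀ (by positivity)] at h3
    linarith
  have h8 : (T * Real.log T - ord 1 * Real.log (ord 1)) / (2 * Real.pi) =
      T * Real.log T / (2 * Real.pi) - ord 1 * Real.log (ord 1) / (2 * Real.pi) := by ring
  rw [h8] at h1
  linarith

end Run7.h719.CD
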