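import Pool.Agent.Run7.h719.CD.Pal
import Pool.Agent.Run7.h719.CD.Num
import Pool.Agent.Run7.h719.CD.Tr

/-!
# No slowly varying sequence is close to the gaps
-/

open MeasureTheory Set Filter Topology

namespace Run7.h719.CD

open SG (ord NZ)
open Pool.Agent.Y747 (dl)
open Pool.Agent.Y749.Rig (nT nT_pos Fr)
open H370 (NN)
open Run7.h719.SM (dT)

lemma shift_eq (f : ℕ → ℝ) (a b i : ℕ) :
    ∑ n ∈ Finset.Icc a b, f (n + i) = ∑ k ∈ Finset.Icc (a + i) (b + i), f k := by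
  rw [← Finset.map_add_right_Icc, Finset.sum_map]
  rfl

lemma shift_le {f : ℕ → ℝ} (hf : ∀ k, 0 ≤ f k) {a b i N : ℕ} (ha : 1 ≤ a) (h : b + i ≤ N) :
    ∑ n ∈ Finset.Icc a b, f (n + i) ≤ ∑ k ∈ Finset.Icc 1 N, f k := by
  rw [shift_eq]
  apply Finset.sum_le_sum_of_subset_of_nonneg
  · exact Finset.Icc_subset_Icc (by omega) h
  · intro k _ _
    exact hf k

/-- the mean deviation of the gaps from below -/
lemma mdev (RH : RiemannHypothesis) : ∀ᶠ N : ℕ in atTop,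
    (0.20106 : ℝ) * N ≤ ∑ n ∈ Finset.Icc 1 N, |dl n - 1| := by
  filter_upwards [Pool.Agent.Y747.plus_ge RH (1 / 200000) (by norm_num),
    Pool.Agent.Y747.sum_dl_le (1 / 200000) (by norm_num)] with N h1 h2
  have e : ∑ n ∈ Finset.Icc 1 N, |dl n - 1| =
      2 * ∑ n ∈ Finset.Icc 1 N, max 0 (dl n - 1) - (∑ n ∈ Finset.Icc 1 N, dl n - N) := by
    have e1 : (N : ℝ) = ∑ n ∈ Finset.Icc 1 N, (1 : ℝ) := by simp
    rw [e1, ← Finset.sum_sub_distrib, Finset.mul_sum, ← Finset.sum_sub_distrib]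
    apply Finset.sum_congr rfl
    intro n _
    rcases le_total 0 (dl n - 1) with h | h
    · rw [abs_of_nonneg h, max_eq_right h]
      ring
    · rw [abs_of_nonpos h, max_eq_left h]
      ring
  rw [e]
  have hN : (0 : ℝ) ≤ N := Nat.cast_nonneg N
  linarith

lemma pt (T : ℝ) (a : ℕ → ℝ) (n : ℕ) : 7 * |dl (n + 3) - 1| ≤ 7 * |dl (n + 3) - a (n + 3)| +
    |(ord (n + 7) - ord n) * Real.log T / (2 * Real.pi) - 7| +
    (|dl (n + 0) - a (n + 0)| + |dl (n + 1) - a (n + 1)| + |dl (n + 2) - a (n + 2)| +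
      |dl (n + 3) - a (n + 3)| + |dl (n + 4) - a (n + 4)| + |dl (n + 5) - a (n + 5)| +
      |dl (n + 6) - a (n + 6)|) +
    (|dT T (n + 0) - dl (n + 0)| + |dT T (n + 1) - dl (n + 1)| + |dT T (n + 2) - dl (n + 2)| +
      |dT T (n + 3) - dl (n + 3)| + |dT T (n + 4) - dl (n + 4)| + |dT T (n + 5) - dl (n + 5)| +
      |dT T (n + 6) - dl (n + 6)|) +
    (|a (n + 0 + 1) - a (n + 0)| + 2 * |a (n + 1 + 1) - a (n + 1)| +
      3 * |a (n + 2 + 1) - a (n + 2)| + 3 * |a (n + 3 + 1) - a (n + 3)| +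
      2 * |a (n + 4 + 1) - a (n + 4)| + |a (n + 5 + 1) - a (n + 5)|) := by
  have hW : (ord (n + 7) - ord n) * Real.log T / (2 * Real.pi) =
      dT T (n + 0) + dT T (n + 1) + dT T (n + 2) + dT T (n + 3) + dT T (n + 4) + dT T (n + 5) +
        dT T (n + 6) := by
    unfold SM.dT
    simp only [add_zero, add_assoc, Nat.reduceAdd]
    ring
  rw [hW]
  simp only [add_zero, add_assoc, Nat.reduceAdd]
  obtain ⟨W, hWd⟩ : ∃ W : ℝ, W = dT T n + (dT T (n + 1) + (dT T (n + 2) + (dT T (n + 3) +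
      (dT T (n + 4) + (dT T (n + 5) + dT T (n + 6)))))) - 7 := ⟨_, rfl⟩
  rw [← hWd]
  have key : 7 * (dl (n + 3) - 1) = 7 * (dl (n + 3) - a (n + 3)) + W -
      ((dl n - a n) + (dl (n + 1) - a (n + 1)) + (dl (n + 2) - a (n + 2)) +
      (dl (n + 3) - a (n + 3)) + (dl (n + 4) - a (n + 4)) + (dl (n + 5) - a (n + 5)) +
      (dl (n + 6) - a (n + 6))) -
      ((dT T n - dl n) + (dT T (n + 1) - dl (n + 1)) + (dT T (n + 2) - dl (n + 2)) +
      (dT T (n + 3) - dl (n + 3)) + (dT T (n + 4) - dl (n + 4)) + (dT T (n + 5) - dl (n + 5)) +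
      (dT T (n + 6) - dl (n + 6))) +
      ((a (n + 1) - a n) + 2 * (a (n + 2) - a (n + 1)) + 3 * (a (n + 3) - a (n + 2))) -
      (3 * (a (n + 4) - a (n + 3)) + 2 * (a (n + 5) - a (n + 4)) + (a (n + 6) - a (n + 5))) + 0 := by
    rw [hWd]
    ring
  have b : ∀ x : ℝ, x ≤ |x| ∧ -x ≤ |x| := fun x => ⟨le_abs_self x, neg_le_abs x⟩
  have b0 := b (dl (n + 3) - a (n + 3))
  have b1 := b W
  have c0 := b (dl n - a n)
  have c1 := b (dl (n + 1) - a (n + 1))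
  have c2 := b (dl (n + 2) - a (n + 2))
  have c4 := b (dl (n + 4) - a (n + 4))
  have c5 := b (dl (n + 5) - a (n + 5))
  have c6 := b (dl (n + 6) - a (n + 6))
  have d0 := b (dT T n - dl n)
  have d1 := b (dT T (n + 1) - dl (n + 1))
  have d2 := b (dT T (n + 2) - dl (n + 2))
  have d3 := b (dT T (n + 3) - dl (n + 3))
  have d4 := b (dT T (n + 4) - dl (n + 4))
  have d5 := b (dT T (n + 5) - dl (n + 5))
  have d6 := b (dT T (n + 6) - dl (n + 6))
  have f0 := b (a (n + 1) - a n)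
  have f1 := b (a (n + 2) - a (n + 1))
  have f2 := b (a (n + 3) - a (n + 2))
  have f3 := b (a (n + 4) - a (n + 3))
  have f4 := b (a (n + 5) - a (n + 4))
  have f5 := b (a (n + 6) - a (n + 5))
  rcases abs_choice (dl (n + 3) - 1) with h | h <;> rw [h]
  · linarith [b0.1, b1.1, c0.2, c1.2, c2.2, b0.2, c4.2, c5.2, c6.2, d0.2, d1.2, d2.2, d3.2, d4.2,
      d5.2, d6.2, f0.1, f1.1, f2.1, f3.2, f4.2, f5.2]
  · linarith [b0.2, b1.2, c0.1, c1.1, c2.1, b0.1, c4.1, c5.1, c6.1, d0.1, d1.1, d2.1, d3.1, d4.1,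
      d5.1, d6.1, f0.2, f1.2, f2.2, f3.1, f4.1, f5.1]

theorem low (RH : RiemannHypothesis)
    (hB : ∀ ε : ℝ, 0 < ε → ∀ᶠ T in atTop, ∀ α ∈ Icc (1 : ℝ) (3 / 2), 3 / 2 - α - ε ≤ Fr T α) :
    ∀ᶠ N : ℕ in atTop, ∀ a : ℕ → ℝ, 0.0486 * N ≤ ∑ n ∈ Finset.Icc 1 N, |dl n - a n| +
      6 / 7 * ∑ n ∈ Finset.Icc 1 N, |a (n + 1) - a n| := by
  classical
  have hpi := Real.pi_gt_three
  have hlim : Tendsto (fun N : ℕ => ord (N + 1)) atTop atTop :=
    SG.ord_tendsto.comp (tendsto_add_atTop_nat 1)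
  have hlogT : Tendsto (fun N : ℕ => Real.log (ord (N + 1))) atTop atTop :=
    Real.tendsto_log_atTop.comp hlim
  obtain ⟨n1', hn1'⟩ := (SG.ord_tendsto.eventually_ge_atTop 2).exists_forall_of_atTop
  obtain ⟨n1, hn1⟩ : ∃ n1 : ℕ, n1 = n1' + 1 := ⟨_, rfl⟩
  have hn11 : 1 ≤ n1 := by omega
  have hord2 : ∀ n, n1 ≤ n → 2 ≤ ord n := fun n hn => hn1' n (by omega)
  obtain ⟨K, hK⟩ : ∃ K : ℝ, K = ∑ k ∈ Finset.range (n1 + 3), |dl k - 1| := ⟨_, rfl⟩
  obtain ⟨η, hη⟩ : ∃ η : ℝ, η = 1 / 100000 := ⟨_, rfl⟩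
  have hη0 : 0 < η := by rw [hη]; norm_num
  have hsub3 : Tendsto (fun N : ℕ => N - 3) atTop atTop := tendsto_sub_atTop_nat 3
  filter_upwards [hlim.eventually (NV.nv RH hB (β := 7) (by norm_num)),
    W249.TCF.T_le η hη0 (by rw [hη]; norm_num), sum_dT RH η hη0, hsub3.eventually (mdev RH),
    hlim.eventually_ge_atTop 10, hlogT.eventually_ge_atTop (2 * Real.pi * 7),
    (tendsto_natCast_atTop_atTop (R := ℝ)).eventually_ge_atTop ((7 * K + 10) / η),
    eventually_ge_atTop (n1 + 20)] with N h1 h2 h3 h4 h5 h6 h7 h8 a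
  obtain ⟨T, hT⟩ : ∃ T : ℝ, T = ord (N + 1) := ⟨_, rfl⟩
  rw [← hT] at h1 h2 h3 h5 h6
  have hL : 0 < Real.log T := by linarith
  have hTp : 0 < T := by linarith
  obtain ⟨h, hh⟩ : ∃ h : ℝ, h = 2 * Real.pi * 7 / Real.log T := ⟨_, rfl⟩
  have hh0 : 0 ≤ h := by rw [hh]; positivity
  have hh1 : h ≤ 1 := by
    rw [hh, div_le_one hL]
    exact h6
  have hNZ : N + 1 ≤ NZ T := (SG.ord_le_iff (by omega) T).1 (by rw [hT])
  -- the sums of seven gaps
  have hp := palm (show 1 ≤ T by linarith) hh0 7 hn11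
    (fun n hn => by have := hord2 n hn; linarith)
  have hV : ∫ t in (0 : ℝ)..T, ((NN riemannZeta t (t + h) : ℝ) - (7 : ℕ)) ^ 2 ≤ 0.72465 * T := by
    have g1 := h1.2
    have g2 := gue7
    rw [← hh] at g1
    have g3 : 1 / T * ∫ t in (0 : ℝ)..T, ((NN riemannZeta t (t + h) : ℝ) - 7) ^ 2 ≤ 0.72465 := by
      refine g1.trans ?_
      norm_num at g2 ⊢
      linarith
    rw [one_div, inv_mul_le_iff₀ hTp] at g3
    push_cast
    linarith
  have hW : ∑ n ∈ Finset.Icc n1 (N - 6), |(ord (n + 7) - ord n) * Real.log T / (2 * Real.pi) - 7| ≤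
      0.72465 * ((1 + η) * N) := by
    have e1 : ∀ n : ℕ, |(ord (n + 7) - ord n) * Real.log T / (2 * Real.pi) - 7| =
        Real.log T / (2 * Real.pi) * |ord (n + 7) - ord n - h| := by
      intro n
      have hc : 0 < Real.log T / (2 * Real.pi) := by positivity
      have e0 : (ord (n + 7) - ord n) * Real.log T / (2 * Real.pi) - 7 =
          Real.log T / (2 * Real.pi) * (ord (n + 7) - ord n - h) := by
        rw [hh]
        field_simp
      rw [e0, abs_mul, abs_of_pos hc]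
    simp only [e1]
    rw [← Finset.mul_sum]
    have e2 : ∑ n ∈ Finset.Icc n1 (N - 6), |ord (n + 7) - ord n - h| ≤
        ∑ n ∈ Finset.Icc n1 (NZ T - 7), |ord (n + 7) - ord n - h| := by
      apply Finset.sum_le_sum_of_subset_of_nonneg
      · exact Finset.Icc_subset_Icc_right (by omega)
      · intro n _ _
        exact abs_nonneg _
    have e3 := (e2.trans hp).trans hV
    calc Real.log T / (2 * Real.pi) * ∑ n ∈ Finset.Icc n1 (N - 6), |ord (n + 7) - ord n - h| ≤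
        Real.log T / (2 * Real.pi) * (0.72465 * T) := by gcongr
      _ = 0.72465 * (T * Real.log T / (2 * Real.pi)) := by ring
      _ ≤ 0.72465 * ((1 + η) * N) := by
        apply mul_le_mul_of_nonneg_left _ (by norm_num)
        refine le_trans (le_of_eq ?_) h2
        ring
  -- the deviation
  have hD : ∑ k ∈ Finset.Icc 1 (N - 3), |dl k - 1| ≤
      K + ∑ n ∈ Finset.Icc n1 (N - 6), |dl (n + 3) - 1| := by
    rw [shift_eq (fun k => |dl k - 1|) n1 (N - 6) 3, show N - 6 + 3 = N - 3 by omega, hK]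
    have e1 : Finset.Icc 1 (N - 3) ⊆ Finset.range (n1 + 3) ∪ Finset.Icc (n1 + 3) (N - 3) := by
      intro k hk
      rw [Finset.mem_Icc] at hk
      rw [Finset.mem_union, Finset.mem_range, Finset.mem_Icc]
      omega
    have e2 : Disjoint (Finset.range (n1 + 3)) (Finset.Icc (n1 + 3) (N - 3)) := by
      rw [Finset.disjoint_left]
      intro k hk hk2
      rw [Finset.mem_range] at hk
      rw [Finset.mem_Icc] at hk2
      omega
    rw [← Finset.sum_union e2]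
    exact Finset.sum_le_sum_of_subset_of_nonneg e1 fun k _ _ => abs_nonneg _
  have hS : ∑ n ∈ Finset.Icc n1 (N - 6), 7 * |dl (n + 3) - 1| ≤ _ :=
    Finset.sum_le_sum fun n _ => pt T a n
  obtain ⟨u, hu⟩ : ∃ u : ℕ → ℝ, u = fun k => |dl k - a k| := ⟨_, rfl⟩
  obtain ⟨v, hv⟩ : ∃ v : ℕ → ℝ, v = fun k => |dT T k - dl k| := ⟨_, rfl⟩
  obtain ⟨y, hy⟩ : ∃ y : ℕ → ℝ, y = fun k => |a (k + 1) - a k| := ⟨_, rfl⟩
  have eu : ∀ k, |dl k - a k| = u k := fun k => by rw [hu]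
  have ev : ∀ k, |dT T k - dl k| = v k := fun k => by rw [hv]
  have ey : ∀ k, |a (k + 1) - a k| = y k := fun k => by rw [hy]
  have u0 : ∀ k, 0 ≤ u k := fun k => by rw [hu]; exact abs_nonneg _
  have v0 : ∀ k, 0 ≤ v k := fun k => by rw [hv]; exact abs_nonneg _
  have y0 : ∀ k, 0 ≤ y k := fun k => by rw [hy]; exact abs_nonneg _
  have ey0 : ∀ x : ℕ, |a (x + 0 + 1) - a (x + 0)| = y (x + 0) := fun x => ey (x + 0)
  simp only [eu, ev, ey, ey0] at hS h3 ⊢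
  simp only [Finset.sum_add_distrib, ← Finset.mul_sum] at hS
  have s : ∀ (f : ℕ → ℝ) (_ : ∀ k, 0 ≤ f k) (i : ℕ) (_ : i ≤ 6),
      ∑ n ∈ Finset.Icc n1 (N - 6), f (n + i) ≤ ∑ k ∈ Finset.Icc 1 N, f k := fun f hf i hi =>
    shift_le hf hn11 (by omega)
  have a0 := s u u0 0 (by omega)
  have a1 := s u u0 1 (by omega)
  have a2 := s u u0 2 (by omega)
  have a3 := s u u0 3 (by omega)
  have a4 := s u u0 4 (by omega)
  have a5 := s u u0 5 (by omega)
  have a6 := s u u0 6 (by omega)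
  have v0' := s v v0 0 (by omega)
  have v1 := s v v0 1 (by omega)
  have v2 := s v v0 2 (by omega)
  have v3 := s v v0 3 (by omega)
  have v4 := s v v0 4 (by omega)
  have v5 := s v v0 5 (by omega)
  have v6 := s v v0 6 (by omega)
  have y0' := s y y0 0 (by omega)
  have y1 := s y y0 1 (by omega)
  have y2 := s y y0 2 (by omega)
  have y3 := s y y0 3 (by omega)
  have y4 := s y y0 4 (by omega)
  have y5 := s y y0 5 (by omega)
  rw [Nat.cast_sub (by omega)] at h4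
  push_cast at h4
  have h7' : 7 * K + 10 ≤ η * N := by
    rw [div_le_iff₀ hη0] at h7
    linarith
  rw [hη] at h7' hW h3
  obtain ⟨X, hX⟩ : ∃ X : ℝ, X = ∑ k ∈ Finset.Icc 1 N, u k := ⟨_, rfl⟩
  obtain ⟨Y, hY⟩ : ∃ Y : ℝ, Y = ∑ k ∈ Finset.Icc 1 N, y k := ⟨_, rfl⟩
  rw [← hX] at a0 a1 a2 a3 a4 a5 a6 ⊢
  rw [← hY] at y0' y1 y2 y3 y4 y5 ⊢
  linarith

end Run7.h719.CD
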