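import Pool.Agent.Run7.h719.NV.Fin
import Pool.Agent.Run7.h719.SM.Gap

/-!
# Sums of consecutive gaps and the number variance
-/

open MeasureTheory Set Filter Topology

namespace Run7.h719.CD

open SG (ord NZ)
open W200.HW (Ix mem_Ix)
open Pool.Agent.Y749.Rig (ZZ mm mm_nonneg mem_ZZ nT nT_pos Fr)
open H370 (NN)
open Run7.h719.NV (cnt ind_int ind_val sq_int cnt_int NN_cnt)
open Run7.h719.SM (dT)

lemma NZ_split {a b : ℝ} (ha : 1 ≤ a) (hab : a ≤ b) : NZ a + NN riemannZeta a b = NZ b := by
  apply le_antisymm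
  · have hfin := H370.zset_finite H370.good_zeta a b ha
    have e : H370.NN riemannZeta a b = ∑ s ∈ hfin.toFinset, H370.mult riemannZeta s := by
      unfold H370.NN
      exact finsum_mem_eq_finite_toFinset_sum _ hfin
    have h1 := SG.NZ_add_le a b hab hfin.toFinset (by
      intro s hs
      rw [Set.Finite.mem_toFinset] at hs
      obtain ⟨a1, a2, a3, a4, a5⟩ := hs
      exact ⟨⟨a5, a1, a2, by linarith, a4⟩, a3⟩)
    rw [e]
    exact h1
  · exact SG.NZ_le_add a b ha

lemma count (m : ℕ) {t h : ℝ} (ht : 1 ≤ t) (hh : 0 ≤ h) {n1 : ℕ} (hn1 : 1 ≤ n1) (M : ℕ) :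
    (((Finset.Icc n1 M).filter fun n => ord n ≤ t ∧ t < ord (n + m) - h).card : ℝ) +
      (((Finset.Icc n1 M).filter fun n => ord (n + m) - h ≤ t ∧ t < ord n).card : ℝ) ≤
        |(NN riemannZeta t (t + h) : ℝ) - m| := by
  classical
  obtain ⟨a, ha⟩ : ∃ a : ℕ, a = NZ t := ⟨_, rfl⟩
  obtain ⟨b, hb⟩ : ∃ b : ℕ, b = NZ (t + h) := ⟨_, rfl⟩
  have hs := NZ_split ht (show t ≤ t + h by linarith)
  rw [← ha, ← hb] at hs
  have h1 : ((Finset.Icc n1 M).filter fun n => ord n ≤ t ∧ t < ord (n + m) - h) ⊆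
      Finset.Ioc (b - m) a := by
    intro n hn
    rw [Finset.mem_filter, Finset.mem_Icc] at hn
    rw [Finset.mem_Ioc]
    have h2 : n ≤ a := by rw [ha]; exact (SG.ord_le_iff (by omega) t).1 hn.2.1
    have h3 : ¬ n + m ≤ b := by
      intro h4
      rw [hb] at h4
      have := (SG.ord_le_iff (show 1 ≤ n + m by omega) (t + h)).2 h4
      linarith [hn.2.2]
    omega
  have h2 : ((Finset.Icc n1 M).filter fun n => ord (n + m) - h ≤ t ∧ t < ord n) ⊆
      Finset.Ioc a (b - m) := by
    intro n hn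
    rw [Finset.mem_filter, Finset.mem_Icc] at hn
    rw [Finset.mem_Ioc]
    have h2 : n + m ≤ b := by
      rw [hb]
      exact (SG.ord_le_iff (by omega) (t + h)).1 (by linarith [hn.2.1])
    have h3 : ¬ n ≤ a := by
      intro h4
      rw [ha] at h4
      have := (SG.ord_le_iff (show 1 ≤ n by omega) t).2 h4
      linarith [hn.2.2]
    omega
  have c1 := Finset.card_le_card h1
  have c2 := Finset.card_le_card h2
  rw [Nat.card_Ioc] at c1 c2
  have c3 : (((Finset.Icc n1 M).filter fun n => ord n ≤ t ∧ t < ord (n + m) - h).card : ℝ) +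
      (((Finset.Icc n1 M).filter fun n => ord (n + m) - h ≤ t ∧ t < ord n).card : ℝ) ≤
        ((a - (b - m) + (b - m - a) : ℕ) : ℝ) := by exact_mod_cast add_le_add c1 c2
  refine c3.trans ?_
  have hs' : (NN riemannZeta t (t + h) : ℝ) = (b : ℝ) - a := by
    have : (a : ℝ) + NN riemannZeta t (t + h) = b := by exact_mod_cast hs
    linarith
  rw [hs']
  rcases Nat.lt_or_ge b m with h3 | h3
  · have e : a - (b - m) + (b - m - a) = a := by omega
    rw [e]
    have : (b : ℝ) < m := by exact_mod_cast h3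
    have h4 : (a : ℝ) ≤ -((b : ℝ) - a - m) := by linarith
    exact h4.trans (neg_le_abs _)
  · rcases Nat.le_total a (b - m) with h4 | h4
    · have e : a - (b - m) + (b - m - a) = b - m - a := by omega
      rw [e, Nat.cast_sub h4, Nat.cast_sub h3]
      have h5 : (b : ℝ) - m - a ≤ (b : ℝ) - a - m := by linarith
      exact h5.trans (le_abs_self _)
    · have e : a - (b - m) + (b - m - a) = a - (b - m) := by omega
      rw [e, Nat.cast_sub h4, Nat.cast_sub h3]
      have h5 : (a : ℝ) - (b - m) ≤ -((b : ℝ) - a - m) := by linarith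
      exact h5.trans (neg_le_abs _)

lemma abs_le_sq (k : ℕ) (m : ℕ) : |(k : ℝ) - m| ≤ ((k : ℝ) - m) ^ 2 := by
  have h : |(k : ℤ) - m| ≤ ((k : ℤ) - m) ^ 2 := by
    rw [← sq_abs]
    rcases eq_or_ne ((k : ℤ) - m) 0 with h0 | h0
    · rw [h0]; simp
    · have : 1 ≤ |(k : ℤ) - m| := Int.one_le_abs h0
      nlinarith
  exact_mod_cast h

/-- the sum over the zeros is at most the integral over the windows -/
theorem palm {T h : ℝ} (hT : 1 ≤ T) (hh : 0 ≤ h) (m : ℕ) {n1 : ℕ} (hn1 : 1 ≤ n1)
    (hord : ∀ n, n1 ≤ n → 1 ≤ ord n - h) :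
    ∑ n ∈ Finset.Icc n1 (NZ T - m), |ord (n + m) - ord n - h| ≤
      ∫ t in (0 : ℝ)..T, ((NN riemannZeta t (t + h) : ℝ) - m) ^ 2 := by
  classical
  obtain ⟨f, hf⟩ : ∃ f : ℝ → ℝ, f = fun t => ∑ n ∈ Finset.Icc n1 (NZ T - m),
      ((Ico (ord n) (ord (n + m) - h)).indicator (fun _ => (1 : ℝ)) t +
        (Ico (ord (n + m) - h) (ord n)).indicator (fun _ => (1 : ℝ)) t) := ⟨_, rfl⟩
  have hint : Integrable f := by
    rw [hf]
    exact integrable_finsetSum _ fun n _ => (ind_int _ _).add (ind_int _ _)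
  have hval : ∫ t, f t = ∑ n ∈ Finset.Icc n1 (NZ T - m), |ord (n + m) - ord n - h| := by
    have e0 : ∫ t, f t = ∑ n ∈ Finset.Icc n1 (NZ T - m),
        ∫ t, ((Ico (ord n) (ord (n + m) - h)).indicator (fun _ => (1 : ℝ)) t +
          (Ico (ord (n + m) - h) (ord n)).indicator (fun _ => (1 : ℝ)) t) := by
      rw [hf]
      exact integral_finsetSum _ fun n _ => (ind_int _ _).add (ind_int _ _)
    rw [e0]
    refine Finset.sum_congr rfl fun n _ => ?_
    rw [integral_add (ind_int _ _) (ind_int _ _), ind_val, ind_val]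
    rcases le_total 0 (ord (n + m) - ord n - h) with h1 | h1
    · rw [abs_of_nonneg h1, max_eq_right (by linarith), max_eq_left (by linarith)]
      ring
    · rw [abs_of_nonpos h1, max_eq_left (by linarith), max_eq_right (by linarith)]
      ring
  have hbd : ∀ n ∈ Finset.Icc n1 (NZ T - m), 1 ≤ ord n ∧ ord n ≤ T ∧ 1 ≤ ord (n + m) - h ∧
      ord (n + m) - h ≤ T := by
    intro n hn
    rw [Finset.mem_Icc] at hn
    have h1 := hord n hn.1
    have h2 := hord (n + m) (by omega)
    have h3 : ord (n + m) ≤ T := (SG.ord_le_iff (by omega) T).2 (by omega)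
    have h4 : ord n ≤ ord (n + m) := SG.ord_mono (by omega) (by omega)
    exact ⟨by linarith, by linarith, h2, by linarith⟩
  have hsupp : ∀ t, t ∉ Ioc 0 T → f t = 0 := by
    intro t ht
    rw [hf]
    refine Finset.sum_eq_zero fun n hn => ?_
    obtain ⟨b1, b2, b3, b4⟩ := hbd n hn
    rw [indicator_of_notMem, indicator_of_notMem, add_zero]
    · intro h1
      exact ht ⟨by linarith [h1.1], by linarith [h1.2]⟩
    · intro h1
      exact ht ⟨by linarith [h1.1], by linarith [h1.2]⟩
  have hle : ∀ t ∈ Icc (0 : ℝ) T, f t ≤ ((NN riemannZeta t (t + h) : ℝ) - m) ^ 2 := by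
    intro t ht
    rcases lt_or_ge t 1 with h1 | h1
    · have : f t = 0 := by
        rw [hf]
        refine Finset.sum_eq_zero fun n hn => ?_
        obtain ⟨b1, b2, b3, b4⟩ := hbd n hn
        rw [indicator_of_notMem, indicator_of_notMem, add_zero]
        · intro h1
          linarith [h1.1]
        · intro h1
          linarith [h1.1]
      rw [this]
      positivity
    · refine le_trans ?_ (abs_le_sq _ m)
      refine le_trans (le_of_eq ?_) (count m h1 hh hn1 (NZ T - m))
      rw [hf]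
      show ∑ n ∈ Finset.Icc n1 (NZ T - m), _ = _
      rw [Finset.sum_add_distrib]
      congr 1
      · rw [Finset.card_filter]
        push_cast
        refine Finset.sum_congr rfl fun n _ => ?_
        by_cases h2 : ord n ≤ t ∧ t < ord (n + m) - h
        · rw [if_pos h2, indicator_of_mem (show t ∈ Ico _ _ from h2)]
        · rw [if_neg h2, indicator_of_notMem (show t ∉ Ico _ _ from h2)]
      · rw [Finset.card_filter]
        push_cast
        refine Finset.sum_congr rfl fun n _ => ?_
        by_cases h2 : ord (n + m) - h ≤ t ∧ t < ord n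
        · rw [if_pos h2, indicator_of_mem (show t ∈ Ico _ _ from h2)]
        · rw [if_neg h2, indicator_of_notMem (show t ∉ Ico _ _ from h2)]
  have e1 : ∫ t, f t = ∫ t in (0 : ℝ)..T, f t := by
    rw [intervalIntegral.integral_of_le (by linarith)]
    exact (setIntegral_eq_integral_of_forall_compl_eq_zero hsupp).symm
  rw [← hval, e1]
  apply intervalIntegral.integral_mono_on (by linarith) hint.intervalIntegrable ?_ hle
  have i1 : IntervalIntegrable (fun t => (cnt (T + h) h t - m) ^ 2) volume 0 T := by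
    have a1 : IntervalIntegrable (fun t => cnt (T + h) h t ^ 2) volume 0 T :=
      (sq_int (T + h) h).intervalIntegrable
    have a2 : IntervalIntegrable (fun t => 2 * m * cnt (T + h) h t) volume 0 T :=
      (cnt_int (T + h) h).intervalIntegrable.const_mul _
    have a3 : IntervalIntegrable (fun _ : ℝ => (m : ℝ) ^ 2) volume 0 T := by simp
    refine ((a1.sub a2).add a3).congr ?_
    intro t _
    show cnt (T + h) h t ^ 2 - 2 * m * cnt (T + h) h t + (m : ℝ) ^ 2 = _
    ring
  refine i1.congr ?_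
  intro t ht
  rw [uIoc_of_le (by linarith)] at ht
  show (cnt (T + h) h t - m) ^ 2 = ((NN riemannZeta t (t + h) : ℝ) - m) ^ 2
  rw [NN_cnt (U := T + h) ht.1.le (by linarith [ht.2])]

end Run7.h719.CD
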